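import Pool.Agent.Helper3.DL.Defs

/-! # Auxiliary lemmas for the key bilinear lemma (MP_1f5042_nt, DL-11) -/

namespace Pool.Agent.DL

open MeasureTheory Finset

namespace Key

variable {n k : ℕ}

theorem lintegral_scale {R : ℝ} (hR : 0 < R) {f : (Fin n → ℝ) → ENNReal} (hf : Measurable f) :
    ∫⁻ y, f (R⁻¹ • y) = ENNReal.ofReal (R ^ n) * ∫⁻ y, f y := by
  have h1 := Measure.map_addHaar_smul (volume : Measure (Fin n → ℝ)) (inv_ne_zero hR.ne')
  have h2 : ∫⁻ y, f (R⁻¹ • y) = ∫⁻ y, f y ∂(Measure.map (R⁻¹ • ·) volume) :=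
    (lintegral_map hf (measurable_const_smul _)).symm
  rw [h2, h1, lintegral_smul_measure, smul_eq_mul]
  congr 2
  rw [Module.finrank_fin_fun, inv_pow, inv_inv, abs_of_pos (by positivity)]

/-- Jensen -/
theorem lintegral_jensen {Y : Type} [MeasurableSpace Y] (μ : Measure Y) (F w : Y → ENNReal)
    (hF : Measurable F) (hw : Measurable w) {p : ℕ} (hp : 1 ≤ p) :
    (∫⁻ y, F y * w y ∂μ) ^ p ≤ (∫⁻ y, w y ∂μ) ^ (p - 1) * ∫⁻ y, F y ^ p * w y ∂μ := by
  rcases hp.eq_or_lt with rfl | hp
  · simp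
  set ν : Measure Y := μ.withDensity w with hν
  have hpr : (1 : ℝ) < p := by exact_mod_cast hp
  have hp0 : (0 : ℝ) < p := by linarith
  have e1 : ∀ H : Y → ENNReal, Measurable H → ∫⁻ y, H y ∂ν = ∫⁻ y, H y * w y ∂μ := by
    intro H hH
    rw [hν, lintegral_withDensity_eq_lintegral_mul _ hw hH]
    refine lintegral_congr fun y => ?_
    simp [mul_comm]
  have hq : (p : ℝ).HolderConjugate ((p : ℝ) / (p - 1)) :=
    Real.HolderConjugate.conjExponent hpr
  have h2 := ENNReal.lintegral_mul_le_Lp_mul_Lq ν hq hF.aemeasurable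
    (measurable_const (a := (1 : ENNReal))).aemeasurable
  simp only [Pi.mul_apply, mul_one, ENNReal.one_rpow, ENNReal.rpow_natCast] at h2
  rw [e1 F hF, e1 _ (hF.pow_const p), e1 _ measurable_const] at h2
  simp only [one_mul] at h2
  calc (∫⁻ y, F y * w y ∂μ) ^ p
      ≤ ((∫⁻ y, F y ^ p * w y ∂μ) ^ (1 / (p : ℝ)) *
          (∫⁻ y, w y ∂μ) ^ (1 / ((p : ℝ) / (p - 1)))) ^ p := by gcongr
    _ = (∫⁻ y, w y ∂μ) ^ (p - 1) * ∫⁻ y, F y ^ p * w y ∂μ := by
        rw [mul_pow, ← ENNReal.rpow_natCast, ← ENNReal.rpow_mul, one_div,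
          inv_mul_cancel₀ hp0.ne', ENNReal.rpow_one, mul_comm]
        congr 1
        rw [← ENNReal.rpow_natCast, ← ENNReal.rpow_mul, ← ENNReal.rpow_natCast]
        congr 1
        rw [Nat.cast_sub hp.le]
        push_cast
        field_simp

/-- sums over blocks -/
theorem sum_blocks {E : Type*} [AddCommMonoid E] (f : ℕ → E) (P Q : ℕ) :
    ∑ j ∈ range (P * Q), f j = ∑ i ∈ range P, ∑ j ∈ range Q, f (i * Q + j) := by
  induction P with
  | zero => simp
  | succ P ih =>
    rw [Nat.succ_mul, Finset.sum_range_add, ih, Finset.sum_range_succ]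

/-- the embedding of the last coordinates -/
def emb (hnk : n ≤ k) (j : Fin n) : Fin k := ⟨k - n + j, by omega⟩

theorem emb_injective (hnk : n ≤ k) : Function.Injective (emb hnk) := by
  intro i j h
  have := congrArg Fin.val h
  simp only [emb] at this
  exact Fin.ext (by omega)

/-- the embedding of the space of the last coordinates -/
noncomputable def iota (hnk : n ≤ k) (y : Fin n → ℝ) : Fin k → ℝ :=
  fun i => ∑ j : Fin n, if emb hnk j = i then y j else 0

/-- the last coordinates -/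
def lst (hnk : n ≤ k) (ξ : Fin k → ℝ) : Fin n → ℝ := fun j => ξ (emb hnk j)

theorem measurable_lst (hnk : n ≤ k) : Measurable (lst hnk) :=
  measurable_pi_lambda _ fun _ => measurable_pi_apply _

theorem dot_iota (hnk : n ≤ k) (y : Fin n → ℝ) (ξ : Fin k → ℝ) :
    dot (iota hnk y) ξ = dot y (lst hnk ξ) := by
  unfold dot iota lst
  simp only [Finset.sum_mul]
  rw [Finset.sum_comm]
  refine Finset.sum_congr rfl fun j _ => ?_
  rw [Finset.sum_eq_single (emb hnk j)]
  · simp
  · intro i _ hi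
    rw [if_neg (Ne.symm hi), zero_mul]
  · intro h; exact absurd (Finset.mem_univ _) h

theorem continuous_iota (hnk : n ≤ k) : Continuous (iota hnk) := by
  refine continuous_pi fun i => ?_
  refine continuous_finsetSum _ fun j _ => ?_
  split_ifs
  · exact continuous_apply j
  · exact continuous_const

end Key

end Pool.Agent.DL
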