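import Pool.Agent.Helper70.DL.KeyKer

namespace Pool.Agent.DL

open MeasureTheory Finset

namespace Key

variable {n k : ℕ}

theorem claim1 (hnk : n ≤ k) {U : Set (Fin k → ℝ)} {g : (Fin k → ℝ) → ℂ} (hg : Spec U g)
    {η : (Fin n → ℝ) → ℂ} (hη : Integrable η) (hηc : Continuous η) {c : ℝ}
    (h1 : ∀ ξ : Fin n → ℝ, (∀ i, |ξ i| ≤ c) → ∫ y, η y * ee (-dot y ξ) = 1)
    (hU : ∀ ξ ∈ U, ∀ i, |lst hnk ξ i| ≤ c) {p : ℕ} (hp : 1 ≤ p) (x : Fin k → ℝ) :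
    ‖g x‖ₑ ^ p ≤ (∫⁻ y, ‖η y‖ₑ) ^ (p - 1) *
      ∫⁻ y, ‖g (x - iota hnk y)‖ₑ ^ p * ‖η y‖ₑ := by
  have h2 := hg.repro (iota hnk) (lst hnk) (measurable_lst hnk) (dot_iota hnk) η hη
    (fun ξ hξ => h1 _ (hU ξ hξ)) x
  have h3 : ‖g x‖ₑ ≤ ∫⁻ y, ‖g (x - iota hnk y)‖ₑ * ‖η y‖ₑ := by
    rw [h2]
    refine (enorm_integral_le_lintegral_enorm _).trans (le_of_eq ?_)
    exact lintegral_congr fun y => enorm_mul _ _
  have hc : Continuous fun y => g (x - iota hnk y) :=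
    hg.continuous.comp (continuous_const.sub (continuous_iota hnk))
  calc ‖g x‖ₑ ^ p ≤ (∫⁻ y, ‖g (x - iota hnk y)‖ₑ * ‖η y‖ₑ) ^ p := by gcongr
    _ ≤ _ := lintegral_jensen _ _ _ hc.measurable.enorm hηc.measurable.enorm hp

theorem claim2 (hnk : n ≤ k) {U : Set (Fin k → ℝ)} {F g : (Fin k → ℝ) → ℂ} (hF : Continuous F)
    (hg : Spec U g)
    {η : (Fin n → ℝ) → ℂ} (hη : Integrable η) (hηc : Continuous η) {c : ℝ}
    (h1 : ∀ ξ : Fin n → ℝ, (∀ i, |ξ i| ≤ c) → ∫ y, η y * ee (-dot y ξ) = 1)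
    (hU : ∀ ξ ∈ U, ∀ i, |lst hnk ξ i| ≤ c) {p : ℕ} (hp : 1 ≤ p) (q : ℕ) :
    ∫⁻ x, ‖F x‖ₑ ^ q * ‖g x‖ₑ ^ p ≤ (∫⁻ y, ‖η y‖ₑ) ^ (p - 1) *
      ∫⁻ x, ‖g x‖ₑ ^ p * ∫⁻ y, ‖F (x + iota hnk y)‖ₑ ^ q * ‖η y‖ₑ := by
  have hgc := hg.continuous
  have hio := continuous_iota hnk
  have hK : (∫⁻ y, ‖η y‖ₑ) ^ (p - 1) ≠ ⊤ := ENNReal.pow_ne_top hη.2.ne
  -- measurability on the product
  have m1 : Measurable fun z : (Fin k → ℝ) × (Fin n → ℝ) =>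
      ‖F z.1‖ₑ ^ q * (‖g (z.1 - iota hnk z.2)‖ₑ ^ p * ‖η z.2‖ₑ) := by
    have c1 : Continuous fun z : (Fin k → ℝ) × (Fin n → ℝ) => F z.1 := hF.comp continuous_fst
    have c2 : Continuous fun z : (Fin k → ℝ) × (Fin n → ℝ) => g (z.1 - iota hnk z.2) :=
      hgc.comp (continuous_fst.sub (hio.comp continuous_snd))
    have c3 : Continuous fun z : (Fin k → ℝ) × (Fin n → ℝ) => η z.2 := hηc.comp continuous_snd
    exact (c1.measurable.enorm.pow_const q).mul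
      ((c2.measurable.enorm.pow_const p).mul c3.measurable.enorm)
  have m2 : Measurable fun z : (Fin n → ℝ) × (Fin k → ℝ) =>
      ‖F (z.2 + iota hnk z.1)‖ₑ ^ q * (‖g z.2‖ₑ ^ p * ‖η z.1‖ₑ) := by
    have c1 : Continuous fun z : (Fin n → ℝ) × (Fin k → ℝ) => F (z.2 + iota hnk z.1) :=
      hF.comp (continuous_snd.add (hio.comp continuous_fst))
    have c2 : Continuous fun z : (Fin n → ℝ) × (Fin k → ℝ) => g z.2 :=
      hgc.comp continuous_snd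
    have c3 : Continuous fun z : (Fin n → ℝ) × (Fin k → ℝ) => η z.1 := hηc.comp continuous_fst
    exact (c1.measurable.enorm.pow_const q).mul
      ((c2.measurable.enorm.pow_const p).mul c3.measurable.enorm)
  calc ∫⁻ x, ‖F x‖ₑ ^ q * ‖g x‖ₑ ^ p
      ≤ ∫⁻ x, ‖F x‖ₑ ^ q * ((∫⁻ y, ‖η y‖ₑ) ^ (p - 1) *
          ∫⁻ y, ‖g (x - iota hnk y)‖ₑ ^ p * ‖η y‖ₑ) := by
        refine lintegral_mono fun x => ?_
        have := claim1 hnk hg hη hηc h1 hU hp x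
        dsimp only
        gcongr
    _ = (∫⁻ y, ‖η y‖ₑ) ^ (p - 1) * ∫⁻ x, ∫⁻ y, ‖F x‖ₑ ^ q *
          (‖g (x - iota hnk y)‖ₑ ^ p * ‖η y‖ₑ) := by
        rw [← lintegral_const_mul' _ _ hK]
        refine lintegral_congr fun x => ?_
        rw [lintegral_const_mul' _ _ (ENNReal.pow_ne_top enorm_ne_top)]
        ring
    _ = (∫⁻ y, ‖η y‖ₑ) ^ (p - 1) * ∫⁻ y, ∫⁻ x, ‖F x‖ₑ ^ q *
          (‖g (x - iota hnk y)‖ₑ ^ p * ‖η y‖ₑ) := by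
        rw [lintegral_lintegral_swap m1.aemeasurable]
    _ = (∫⁻ y, ‖η y‖ₑ) ^ (p - 1) * ∫⁻ y, ∫⁻ x, ‖F (x + iota hnk y)‖ₑ ^ q *
          (‖g x‖ₑ ^ p * ‖η y‖ₑ) := by
        congr 1
        refine lintegral_congr fun y => ?_
        rw [← lintegral_add_right_eq_self _ (iota hnk y)]
        simp only [add_sub_cancel_right]
    _ = (∫⁻ y, ‖η y‖ₑ) ^ (p - 1) * ∫⁻ x, ∫⁻ y, ‖F (x + iota hnk y)‖ₑ ^ q *
          (‖g x‖ₑ ^ p * ‖η y‖ₑ) := by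
        rw [lintegral_lintegral_swap m2.aemeasurable]
    _ = _ := by
        congr 1
        refine lintegral_congr fun x => ?_
        rw [← lintegral_const_mul' _ _ (ENNReal.pow_ne_top enorm_ne_top)]
        refine lintegral_congr fun y => ?_
        ring

theorem rpow_inv_pow {a : ℕ} (ha : 1 ≤ a) (x : ENNReal) : (x ^ (1 / (a : ℝ))) ^ a = x := by
  rw [← ENNReal.rpow_natCast, ← ENNReal.rpow_mul, one_div,
    inv_mul_cancel₀ (by exact_mod_cast (by omega : a ≠ 0)), ENNReal.rpow_one]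

theorem pow_rpow_inv {a : ℕ} (ha : 1 ≤ a) (x : ENNReal) : (x ^ a) ^ (1 / (a : ℝ)) = x := by
  rw [← ENNReal.rpow_natCast, ← ENNReal.rpow_mul, one_div,
    mul_inv_cancel₀ (by exact_mod_cast (by omega : a ≠ 0)), ENNReal.rpow_one]

/-- the core of the key lemma -/
theorem core (hnk : n ≤ k) {a b : ℕ} (ha : 1 ≤ a) (hb : 1 ≤ b) {R : ℝ} (hR : 0 < R)
    {K₁ K₂ K₃ : ENNReal} {η : (Fin n → ℝ) → ℂ} {c : ℝ} (hη : Integrable η) (hηc : Continuous η)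
    (h1 : ∀ ξ : Fin n → ℝ, (∀ i, |ξ i| ≤ c) → ∫ y, η y * ee (-dot y ξ) = 1)
    (hK₁ : (∫⁻ y, ‖η y‖ₑ) = K₁) (hK₂t : K₂ ≠ ⊤)
    (hK₂ : ∀ y, ‖η y‖ₑ ≤ K₂ * (ENNReal.ofReal (R ^ n))⁻¹ *
        ‖((∏ i, sc (R⁻¹ * y i) : ℝ) : ℂ)‖ₑ ^ (2 * a))
    (hK₃ : (∫⁻ y : Fin n → ℝ, ‖((∏ i, sc (R⁻¹ * y i) : ℝ) : ℂ)‖ₑ ^ (2 * a)) =
        ENNReal.ofReal (R ^ n) * K₃)
    {U : Set (Fin k → ℝ)} {g : (Fin k → ℝ) → ℂ} (hg : Spec U g)
    (hU : ∀ ξ ∈ U, ∀ i, |lst hnk ξ i| ≤ c) (p : ℕ) (F : ℕ → (Fin k → ℝ) → ℂ)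
    (hF : ∀ i : ℕ, i < p → Continuous (F i)) (D : ENNReal) (hDt : D ≠ ⊤)
    (hdec : ∀ x, NN a (fun y => (∑ i ∈ range p, F i (x + iota hnk y)) *
        ((∏ i, sc (R⁻¹ * y i) : ℝ) : ℂ)) ≤
      D * ∑ i ∈ range p, NN a (fun y => F i (x + iota hnk y) *
        ((∏ i, sc (R⁻¹ * y i) : ℝ) : ℂ)))
    (E : ENNReal) (S : ℕ → ENNReal)
    (hbil : ∀ i : ℕ, i < p → ∀ y, ∫⁻ x, ‖F i (x + iota hnk y)‖ₑ ^ (2 * a) * ‖g x‖ₑ ^ (2 * b) ≤
      E * S i ^ a) :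
    ∫⁻ x, ‖∑ i ∈ range p, F i x‖ₑ ^ (2 * a) * ‖g x‖ₑ ^ (2 * b) ≤
      K₁ ^ (2 * b - 1) * K₂ * K₃ * D ^ a * E * (∑ i ∈ range p, S i) ^ a := by
  set ψ : (Fin n → ℝ) → ℂ := fun y => ((∏ i, sc (R⁻¹ * y i) : ℝ) : ℂ) with hψ
  have hψc : Continuous ψ := Complex.continuous_ofReal.comp (continuous_psi R)
  have hRn : ENNReal.ofReal (R ^ n) ≠ 0 := by
    have : 0 < R ^ n := by positivity
    simpa using this
  have hio := continuous_iota hnk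
  have hgc := hg.continuous
  have hFs : Continuous fun x => ∑ i ∈ range p, F i x :=
    continuous_finsetSum _ fun i hi => hF i (mem_range.1 hi)
  set H : ℕ → (Fin k → ℝ) → ENNReal := fun i x =>
    ∫⁻ y, ‖F i (x + iota hnk y) * ψ y‖ₑ ^ (2 * a) with hH
  have hcz : ∀ i : ℕ, i < p → Continuous fun z : (Fin k → ℝ) × (Fin n → ℝ) =>
      F i (z.1 + iota hnk z.2) * ψ z.2 := fun i hi =>
    ((hF i hi).comp (continuous_fst.add (hio.comp continuous_snd))).mul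
      (hψc.comp continuous_snd)
  have hHm : ∀ i ∈ range p, Measurable (H i) := by
    intro i hi
    exact ((hcz i (mem_range.1 hi)).measurable.enorm.pow_const _).lintegral_prod_right'
  -- the inner integral
  have h4 : ∀ x, ∫⁻ y, ‖∑ i ∈ range p, F i (x + iota hnk y)‖ₑ ^ (2 * a) * ‖η y‖ₑ ≤
      K₂ * (ENNReal.ofReal (R ^ n))⁻¹ * D ^ a *
        (∑ i ∈ range p, H i x ^ (1 / (a : ℝ))) ^ a := by
    intro x
    have h5 := hdec x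
    have h6 : (∫⁻ y, ‖(∑ i ∈ range p, F i (x + iota hnk y)) * ψ y‖ₑ ^ (2 * a)) ≤
        D ^ a * (∑ i ∈ range p, H i x ^ (1 / (a : ℝ))) ^ a := by
      rw [← NN_pow ha, ← mul_pow]
      gcongr
      exact h5
    calc ∫⁻ y, ‖∑ i ∈ range p, F i (x + iota hnk y)‖ₑ ^ (2 * a) * ‖η y‖ₑ
        ≤ ∫⁻ y, (K₂ * (ENNReal.ofReal (R ^ n))⁻¹) *
            ‖(∑ i ∈ range p, F i (x + iota hnk y)) * ψ y‖ₑ ^ (2 * a) := by
          refine lintegral_mono fun y => ?_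
          dsimp only
          rw [enorm_mul, mul_pow]
          calc ‖∑ i ∈ range p, F i (x + iota hnk y)‖ₑ ^ (2 * a) * ‖η y‖ₑ
              ≤ ‖∑ i ∈ range p, F i (x + iota hnk y)‖ₑ ^ (2 * a) *
                (K₂ * (ENNReal.ofReal (R ^ n))⁻¹ * ‖ψ y‖ₑ ^ (2 * a)) := by
                gcongr
                exact hK₂ y
            _ = _ := by ring
      _ = (K₂ * (ENNReal.ofReal (R ^ n))⁻¹) *
            ∫⁻ y, ‖(∑ i ∈ range p, F i (x + iota hnk y)) * ψ y‖ₑ ^ (2 * a) :=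
          lintegral_const_mul' _ _ (ENNReal.mul_ne_top hK₂t (ENNReal.inv_ne_top.2 hRn))
      _ ≤ (K₂ * (ENNReal.ofReal (R ^ n))⁻¹) *
            (D ^ a * (∑ i ∈ range p, H i x ^ (1 / (a : ℝ))) ^ a) := by gcongr
      _ = _ := by ring
  -- the integral over x
  have h7 : ∀ i ∈ range p, ∫⁻ x, ‖g x‖ₑ ^ (2 * b) * H i x ≤
      ENNReal.ofReal (R ^ n) * K₃ * E * S i ^ a := by
    intro i hi
    have hi' := mem_range.1 hi
    have m1 : Measurable fun z : (Fin k → ℝ) × (Fin n → ℝ) =>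
        ‖g z.1‖ₑ ^ (2 * b) * ‖F i (z.1 + iota hnk z.2) * ψ z.2‖ₑ ^ (2 * a) :=
      ((hgc.comp continuous_fst).measurable.enorm.pow_const _).mul
        ((hcz i hi').measurable.enorm.pow_const _)
    calc ∫⁻ x, ‖g x‖ₑ ^ (2 * b) * H i x
        = ∫⁻ x, ∫⁻ y, ‖g x‖ₑ ^ (2 * b) * ‖F i (x + iota hnk y) * ψ y‖ₑ ^ (2 * a) := by
          refine lintegral_congr fun x => ?_
          rw [lintegral_const_mul' _ _ (ENNReal.pow_ne_top enorm_ne_top)]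
      _ = ∫⁻ y, ∫⁻ x, ‖g x‖ₑ ^ (2 * b) * ‖F i (x + iota hnk y) * ψ y‖ₑ ^ (2 * a) :=
          lintegral_lintegral_swap m1.aemeasurable
      _ = ∫⁻ y, ‖ψ y‖ₑ ^ (2 * a) *
            ∫⁻ x, ‖F i (x + iota hnk y)‖ₑ ^ (2 * a) * ‖g x‖ₑ ^ (2 * b) := by
          refine lintegral_congr fun y => ?_
          rw [← lintegral_const_mul' _ _ (ENNReal.pow_ne_top enorm_ne_top)]
          refine lintegral_congr fun x => ?_
          rw [enorm_mul, mul_pow]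
          ring
      _ ≤ ∫⁻ y, ‖ψ y‖ₑ ^ (2 * a) * (E * S i ^ a) := by
          refine lintegral_mono fun y => ?_
          have := hbil i hi' y
          dsimp only
          gcongr
      _ = (∫⁻ y, ‖ψ y‖ₑ ^ (2 * a)) * (E * S i ^ a) :=
          lintegral_mul_const _ (hψc.measurable.enorm.pow_const _)
      _ = _ := by
          rw [hK₃]
          ring
  calc ∫⁻ x, ‖∑ i ∈ range p, F i x‖ₑ ^ (2 * a) * ‖g x‖ₑ ^ (2 * b)
      ≤ (∫⁻ y, ‖η y‖ₑ) ^ (2 * b - 1) * ∫⁻ x, ‖g x‖ₑ ^ (2 * b) *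
          ∫⁻ y, ‖∑ i ∈ range p, F i (x + iota hnk y)‖ₑ ^ (2 * a) * ‖η y‖ₑ :=
        claim2 hnk hFs hg hη hηc h1 hU (by omega) (2 * a)
    _ ≤ K₁ ^ (2 * b - 1) * ∫⁻ x, ‖g x‖ₑ ^ (2 * b) *
          (K₂ * (ENNReal.ofReal (R ^ n))⁻¹ * D ^ a *
            (∑ i ∈ range p, H i x ^ (1 / (a : ℝ))) ^ a) := by
        rw [hK₁]
        gcongr with x
        exact h4 x
    _ = K₁ ^ (2 * b - 1) * ((K₂ * (ENNReal.ofReal (R ^ n))⁻¹ * D ^ a) *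
          ∫⁻ x, ‖g x‖ₑ ^ (2 * b) * (∑ i ∈ range p, H i x ^ (1 / (a : ℝ))) ^ a) := by
        rw [← lintegral_const_mul' _ _ (ENNReal.mul_ne_top
          (ENNReal.mul_ne_top hK₂t (ENNReal.inv_ne_top.2 hRn)) (ENNReal.pow_ne_top hDt))]
        congr 1
        refine lintegral_congr fun x => ?_
        ring
    _ ≤ K₁ ^ (2 * b - 1) * ((K₂ * (ENNReal.ofReal (R ^ n))⁻¹ * D ^ a) *
          (∑ i ∈ range p, (∫⁻ x, ‖g x‖ₑ ^ (2 * b) * H i x) ^ (1 / (a : ℝ))) ^ a) := by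
        gcongr
        exact lintegral_mink _ ha _ _ (hgc.measurable.enorm.pow_const _) _ hHm
    _ ≤ K₁ ^ (2 * b - 1) * ((K₂ * (ENNReal.ofReal (R ^ n))⁻¹ * D ^ a) *
          (∑ i ∈ range p, (ENNReal.ofReal (R ^ n) * K₃ * E) ^ (1 / (a : ℝ)) * S i) ^ a) := by
        gcongr with i hi
        refine (ENNReal.rpow_le_rpow (h7 i hi) (by positivity)).trans (le_of_eq ?_)
        rw [ENNReal.mul_rpow_of_nonneg _ _ (by positivity), pow_rpow_inv ha]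
    _ = K₁ ^ (2 * b - 1) * K₂ * K₃ * D ^ a * E * (∑ i ∈ range p, S i) ^ a *
          ((ENNReal.ofReal (R ^ n))⁻¹ * ENNReal.ofReal (R ^ n)) := by
        rw [← Finset.mul_sum, mul_pow, rpow_inv_pow ha]
        ring
    _ = _ := by
        rw [ENNReal.inv_mul_cancel hRn ENNReal.ofReal_ne_top, mul_one]

end Key

end Pool.Agent.DL
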