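import Pool.Agent.Helper70.DL.KeyAux
import Pool.Agent.Helper13.DL.DL1
import Pool.Agent.Helper17.DL.Norms
import Pool.Agent.Helper4.DL.Cells
import Pool.Agent.Helper27.DL.Cells
import Pool.Agent.Helper90.DL.Transfer
import Pool.Agent.Helper31.DL.Ker

namespace Pool.Agent.DL

open MeasureTheory Finset

namespace Key

variable {n k : ℕ}

theorem enorm_coe (x : ℝ) : ‖(x : ℂ)‖ₑ = ‖x‖ₑ := by
  rw [← ofReal_norm, ← ofReal_norm, Complex.norm_real]

theorem dot_smul_left (r : ℝ) (x ξ : Fin n → ℝ) : dot (r • x) ξ = r * dot x ξ := by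
  unfold dot
  rw [Finset.mul_sum]
  refine Finset.sum_congr rfl fun i _ => ?_
  simp only [Pi.smul_apply, smul_eq_mul]
  ring

theorem dot_smul_right (r : ℝ) (x ξ : Fin n → ℝ) : dot x (r • ξ) = r * dot x ξ := by
  unfold dot
  rw [Finset.mul_sum]
  refine Finset.sum_congr rfl fun i _ => ?_
  simp only [Pi.smul_apply, smul_eq_mul]
  ring

theorem continuous_ee : Continuous ee := by
  unfold ee
  fun_prop

theorem continuous_psi (R : ℝ) : Continuous (fun y : Fin n → ℝ => ∏ i, sc (R⁻¹ * y i)) := by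
  refine continuous_finsetProd _ fun i _ => ?_
  exact continuous_sc.comp (continuous_const.mul (continuous_apply i))

theorem psi_finite {a : ℕ} (ha : 1 ≤ a) :
    ∫⁻ y : Fin n → ℝ, ‖((∏ i, sc (y i) : ℝ) : ℂ)‖ₑ ^ (2 * a) ≠ ⊤ := by
  have h1 : Integrable (fun y : Fin n → ℝ => ∏ i, sc (y i) ^ (2 * a)) :=
    Integrable.fintype_prod (f := fun _ u => sc u ^ (2 * a))
      (fun _ => integrable_sc_pow (by omega))
  have h2 := h1.2
  rw [hasFiniteIntegral_iff_enorm] at h2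
  refine ne_of_lt (lt_of_le_of_lt (le_of_eq ?_) h2)
  refine lintegral_congr fun y => ?_
  rw [← enorm_pow, ← Complex.ofReal_pow, enorm_coe, Finset.prod_pow]

theorem scaled_kernel (n a : ℕ) (ha : 1 ≤ a) (C : ℝ) : ∃ K₁ K₂ K₃ : ENNReal, K₁ ≠ ⊤ ∧ K₂ ≠ ⊤ ∧
    K₃ ≠ ⊤ ∧ ∀ R : ℝ, 0 < R → ∃ η : (Fin n → ℝ) → ℂ, Integrable η ∧ Continuous η ∧
      (∀ ξ : Fin n → ℝ, (∀ i, |ξ i| ≤ C / R) → ∫ y, η y * ee (-dot y ξ) = 1) ∧
      (∫⁻ y, ‖η y‖ₑ) = K₁ ∧
      (∀ y, ‖η y‖ₑ ≤ K₂ * (ENNReal.ofReal (R ^ n))⁻¹ *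
        ‖((∏ i, sc (R⁻¹ * y i) : ℝ) : ℂ)‖ₑ ^ (2 * a)) ∧
      (∫⁻ y : Fin n → ℝ, ‖((∏ i, sc (R⁻¹ * y i) : ℝ) : ℂ)‖ₑ ^ (2 * a)) =
        ENNReal.ofReal (R ^ n) * K₃ := by
  obtain ⟨K, hK, η, hint, hcont, hb, hone⟩ := exists_kernel n a ha C
  refine ⟨∫⁻ y, ‖η y‖ₑ, ENNReal.ofReal K,
    ∫⁻ y : Fin n → ℝ, ‖((∏ i, sc (y i) : ℝ) : ℂ)‖ₑ ^ (2 * a), hint.2.ne,
    ENNReal.ofReal_ne_top, psi_finite ha, fun R hR => ?_⟩
  have hRn : 0 < R ^ n := by positivity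
  have hRc : ((R : ℂ) ^ n) ≠ 0 := by exact_mod_cast hRn.ne'
  refine ⟨fun y => ((R : ℂ) ^ n)⁻¹ * η (R⁻¹ • y), ?_, ?_, ?_, ?_, ?_, ?_⟩
  · exact (hint.comp_smul (inv_ne_zero hR.ne')).const_mul _
  · exact continuous_const.mul (hcont.comp (continuous_const_smul _))
  · intro ξ hξ
    have h1 := Measure.integral_comp_inv_smul_of_nonneg (volume : Measure (Fin n → ℝ))
      (fun z => η z * ee (-dot z (R • ξ))) hR.le
    rw [hone (R • ξ) (fun i => by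
      have h2 := hξ i
      rw [le_div_iff₀ hR] at h2
      rw [Pi.smul_apply, smul_eq_mul, abs_mul, abs_of_pos hR]
      linarith), Module.finrank_fin_fun] at h1
    have h3 : ∀ y : Fin n → ℝ, ((R : ℂ) ^ n)⁻¹ * η (R⁻¹ • y) * ee (-dot y ξ) =
        ((R : ℂ) ^ n)⁻¹ * (η (R⁻¹ • y) * ee (-dot (R⁻¹ • y) (R • ξ))) := by
      intro y
      rw [dot_smul_left, dot_smul_right, ← mul_assoc R⁻¹, inv_mul_cancel₀ hR.ne', one_mul,
        mul_assoc]
    simp only [h3]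
    rw [integral_const_mul, h1, Complex.real_smul, mul_one, Complex.ofReal_pow,
      inv_mul_cancel₀ hRc]
  · have h1 : ∀ y : Fin n → ℝ, ‖((R : ℂ) ^ n)⁻¹ * η (R⁻¹ • y)‖ₑ =
        (ENNReal.ofReal (R ^ n))⁻¹ * ‖η (R⁻¹ • y)‖ₑ := by
      intro y
      rw [enorm_mul]
      congr 1
      rw [← Complex.ofReal_pow, ← Complex.ofReal_inv, enorm_coe,
        Real.enorm_eq_ofReal (by positivity), ENNReal.ofReal_inv_of_pos hRn]
    simp only [h1]
    have hm : Measurable fun y => ‖η y‖ₑ := hcont.measurable.enorm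
    rw [lintegral_const_mul' _ _ (ENNReal.inv_ne_top.2 (by simpa using hRn)),
      lintegral_scale hR (f := fun y => ‖η y‖ₑ) hm,
      ← mul_assoc, ENNReal.inv_mul_cancel (by simpa using hRn) ENNReal.ofReal_ne_top, one_mul]
  · intro y
    have h1 : ‖((R : ℂ) ^ n)⁻¹ * η (R⁻¹ • y)‖ₑ =
        (ENNReal.ofReal (R ^ n))⁻¹ * ‖η (R⁻¹ • y)‖ₑ := by
      rw [enorm_mul]
      congr 1
      rw [← Complex.ofReal_pow, ← Complex.ofReal_inv, enorm_coe,
        Real.enorm_eq_ofReal (by positivity), ENNReal.ofReal_inv_of_pos hRn]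
    rw [h1, mul_comm (ENNReal.ofReal K), mul_assoc]
    gcongr
    have h2 := hb (R⁻¹ • y)
    have h3 : ∏ i, sc ((R⁻¹ • y) i) ^ (2 * a) = ‖((∏ i, sc (R⁻¹ * y i) : ℝ) : ℂ)‖ ^ (2 * a) := by
      rw [Complex.norm_real, Real.norm_eq_abs, Even.pow_abs ⟨a, by ring⟩, Finset.prod_pow]
      simp only [Pi.smul_apply, smul_eq_mul]
    rw [h3] at h2
    rw [← ofReal_norm, ← ofReal_norm, ← ENNReal.ofReal_pow (norm_nonneg _),
      ← ENNReal.ofReal_mul hK.le]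
    exact ENNReal.ofReal_le_ofReal h2
  · have h1 := lintegral_scale (n := n) hR
      (f := fun y : Fin n → ℝ => ‖((∏ i, sc (y i) : ℝ) : ℂ)‖ₑ ^ (2 * a)) (by
        have : Continuous (fun y : Fin n → ℝ => ∏ i, sc (y i)) :=
          continuous_finsetProd _ fun i _ => continuous_sc.comp (continuous_apply i)
        exact (Complex.continuous_ofReal.comp this).measurable.enorm.pow_const _)
    rw [← h1]
    rfl

end Key

end Pool.Agent.DL
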