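import Pool.Agent.Helper70.DL.KeyCore

namespace Pool.Agent.DL

open MeasureTheory Finset

namespace Key

variable {n k : ℕ}

/-- the exponents of the projected curve -/
def ek (k n : ℕ) : Fin n → ℕ := fun j => k - n + j + 1

theorem ek_inj : Function.Injective (ek k n) := by
  intro i j h
  simp only [ek] at h
  exact Fin.ext (by omega)

theorem ek_pos (j : Fin n) : 1 ≤ ek k n j := by
  simp only [ek]; omega

/-- the spectrum of a piece, restricted and cut off -/
theorem spec_piece (hnk : n ≤ k) {C C' R : ℝ} (hR : 0 < R) (hC : 1 ≤ C)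
    (hfat : ∀ u ρ : ℝ, 1 / 4 ≤ |u| → |u| ≤ 4 → 0 < ρ → ρ ≤ 1 →
      ∀ lam : ℕ → ℝ, (∀ i, |lam i| ≤ C) → ∀ v : Fin n → ℝ, (∀ j, |v j| ≤ C * ρ ^ n) →
        (fun j => u ^ ek k n j + (∑ i ∈ range (ek k n j), ((ek k n j).choose (i + 1) : ℝ) *
          u ^ (ek k n j - (i + 1)) * ρ ^ (i + 1) * lam i) + v j) ∈ cell (ek k n) u ρ C')
    {u ρ : ℝ} (hu1 : 1 / 4 ≤ |u|) (hu2 : |u| ≤ 4) (hρ0 : 0 < ρ) (hρ1 : ρ ≤ 1)
    (hρR : R⁻¹ ≤ ρ ^ n) {F : (Fin k → ℝ) → ℂ} (hF : Spec (cell (mom k) u ρ C) F)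
    (x₀ : Fin k → ℝ) :
    Spec (cell (ek k n) u ρ C') (fun y => F (x₀ + iota hnk y) *
      ((∏ i, sc (R⁻¹ * y i) : ℝ) : ℂ)) := by
  have h1 := hF.pull x₀ (iota hnk) (lst hnk) (measurable_lst hnk) (dot_iota hnk)
  have h2 := sc_spec (n := n) (fun _ => R⁻¹)
  refine (h1.mul h2).mono ?_
  rintro ζ ⟨_, ⟨_, ⟨lam, hlam, rfl⟩, rfl⟩, ξ', hξ', rfl⟩
  have h3 := hfat u ρ hu1 hu2 hρ0 hρ1 (fun i => if h : i < k then lam ⟨i, h⟩ else 0)
    (fun i => by
      split_ifs with h
      · exact hlam _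
      · rw [abs_zero]; linarith) ξ' (fun j => by
      have h4 := hξ' j
      rw [abs_of_pos (inv_pos.2 hR)] at h4
      have h5 : 0 < ρ ^ n := by positivity
      have h6 : 0 < R⁻¹ := inv_pos.2 hR
      nlinarith)
  convert h3 using 1
  funext j
  simp only [Pi.add_apply, lst, P]
  congr 1
  have h7 : mom k (emb hnk j) = ek k n j := by
    simp only [mom, emb, ek]
  rw [h7]
  congr 1
  have h8 : ek k n j ≤ k := by
    simp only [ek]; omega
  rw [Finset.sum_subset (s₁ := range (ek k n j)) (s₂ := range k)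
    (f := fun i => ((ek k n j).choose (i + 1) : ℝ) * u ^ (ek k n j - (i + 1)) * ρ ^ (i + 1) *
      (if h : i < k then lam ⟨i, h⟩ else 0)) (range_subset_range.2 h8), Finset.sum_range]
  · refine Finset.sum_congr rfl fun i _ => ?_
    simp
  · intro i _ hi
    rw [Finset.mem_range, not_lt] at hi
    rw [Nat.choose_eq_zero_of_lt (by omega)]
    simp

theorem tri_pos (hn : 1 ≤ n) : 1 ≤ tri n := by
  unfold tri
  rw [Nat.le_div_iff_mul_le (by norm_num)]
  nlinarith

theorem tri_lt (hk : n < k) : tri n < tri k := by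
  unfold tri
  have h1 : n * (n + 1) + 2 ≤ k * (k + 1) := by nlinarith
  omega

theorem pow_half_le {N A : ℕ} (h : A ≤ N) : (1 / 2 : ℝ) ^ N ≤ (1 / 2) ^ A :=
  pow_le_pow_of_le_one (by norm_num) (by norm_num) h

theorem two_pow_half {N A : ℕ} (h : A ≤ N) : ((2 ^ (N - A) : ℕ) : ℝ) * (1 / 2) ^ N =
    (1 / 2) ^ A := by
  obtain ⟨d, rfl⟩ := Nat.exists_eq_add_of_le h
  rw [Nat.add_sub_cancel_left]
  push_cast
  rw [pow_add, mul_comm, mul_assoc, ← mul_pow]
  norm_num

/-- the key lemma for `t' = 0` -/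
theorem key_zero (hn : 1 ≤ n) (hk : n < k) (hcurve : CurveThm n) (C : ℝ) (hC : 1 ≤ C)
    (ε : ℝ) (hε : 0 < ε) : ∃ K : ℝ, 0 < K ∧ ∀ A A' B N : ℕ, A ≤ A' → A' ≤ N → B ≤ N →
      n * A' ≤ (k - n + 1) * B → ∀ M : ℝ, 0 ≤ M → Bil k n C A' B N M →
      ∀ t : ℝ, t + (1 / 2) ^ A ≤ 1 → (1 / 2) ^ B ≤ t + 1 →
        ((1 / 2) ^ B + 1 / 4 ≤ t ∨ t + (1 / 2) ^ A + 1 / 4 ≤ 0) →
        BilIneq (tri k) (tri n) (tri k - tri n)
          (fun j => cell (mom k) (t + j * (1 / 2) ^ N) ((1 / 2) ^ N) C)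
          (fun j => cell (mom k) (0 + j * (1 / 2) ^ N) ((1 / 2) ^ N) C)
          (2 ^ (N - A)) (2 ^ (N - B)) (K * 2 ^ (ε * N) * M) := by
  have hnk : n ≤ k := hk.le
  set a := tri n with ha'
  set b := tri k - tri n with hb'
  have ha : 1 ≤ a := tri_pos hn
  have hb : 1 ≤ b := by have := tri_lt hk; omega
  have har : (0 : ℝ) < a := by exact_mod_cast ha
  obtain ⟨C', hC', hfat⟩ := cell_fat (ek k n) ek_inj ek_pos (C := C) (by linarith)
  obtain ⟨Kc, hKc, hcur⟩ := hcurve (ek k n) ek_inj ek_pos C' hC' (ε / a) (by positivity)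
  obtain ⟨K₁, K₂, K₃, hK₁, hK₂, hK₃, hker⟩ := scaled_kernel n a ha C
  set κ : ENNReal := K₁ ^ (2 * b - 1) * K₂ * K₃ * ENNReal.ofReal Kc ^ a with hκ
  have hκt : κ ≠ ⊤ := ENNReal.mul_ne_top (ENNReal.mul_ne_top (ENNReal.mul_ne_top
    (ENNReal.pow_ne_top hK₁) hK₂) hK₃) (ENNReal.pow_ne_top ENNReal.ofReal_ne_top)
  refine ⟨κ.toReal + 1, by positivity, ?_⟩
  intro A A' B N hAA hAN hBN hAB M hM hbil t ht1 ht2 ht3 f g hf hg
  have hκle : κ ≤ ENNReal.ofReal (κ.toReal + 1) := by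
    rw [← ENNReal.ofReal_toReal hκt]
    refine ENNReal.ofReal_le_ofReal ?_
    rw [ENNReal.toReal_ofReal ENNReal.toReal_nonneg]
    linarith
  set R : ℝ := 2 ^ ((k - n + 1) * B) with hRdef
  have hR : 0 < R := by positivity
  obtain ⟨η, hη, hηc, hone, e1, e2, e3⟩ := hker R hR
  set p := 2 ^ (A' - A) with hp
  set q := 2 ^ (N - A') with hq
  have hpq : 2 ^ (N - A) = p * q := by
    rw [hp, hq, ← pow_add]
    congr 1
    omega
  have hAh := pow_half_le (N := A') (A := A) hAA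
  have hhalf : ∀ m : ℕ, (0 : ℝ) < (1 / 2) ^ m := fun m => by positivity
  have hhalf1 : ∀ m : ℕ, (1 / 2 : ℝ) ^ m ≤ 1 := fun m => pow_le_one₀ (by norm_num) (by norm_num)
  -- the spectrum of the sum of the `g j`
  have hG : Spec {ξ : Fin k → ℝ | ∀ i, |lst hnk ξ i| ≤ C / R}
      (fun x => ∑ j ∈ range (2 ^ (N - B)), g j x) := by
    refine Spec.sum _ fun j hj => (hg j (mem_range.1 hj)).mono ?_
    intro ξ hξ i
    have hj' : (j : ℝ) + 1 ≤ ((2 ^ (N - B) : ℕ) : ℝ) := by exact_mod_cast mem_range.1 hj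
    have h1 := two_pow_half hBN
    have h2 := hhalf N
    have h3 := cell_zero_subset hC (hhalf B) (hhalf N).le (v := 0 + j * (1 / 2) ^ N)
      (by positivity) (by
        rw [← h1]
        nlinarith) hξ (emb hnk i)
    refine h3.trans ?_
    rw [div_eq_mul_inv]
    refine mul_le_mul_of_nonneg_left ?_ (by linarith)
    have h4 : R⁻¹ = ((1 / 2 : ℝ) ^ B) ^ (k - n + 1) := by
      rw [hRdef, ← pow_mul, one_div, inv_pow, mul_comm B]
    rw [h4]
    refine pow_le_pow_of_le_one (hhalf B).le (hhalf1 B) ?_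
    simp only [emb]
    omega
  -- arcs stay away from zero
  have harc : ∀ v, t ≤ v → v ≤ t + (1 / 2) ^ A → 1 / 4 ≤ |v| ∧ |v| ≤ 4 := by
    intro v hv1 hv2
    have hB := hhalf B
    rcases ht3 with h | h
    · have : 0 < v := by linarith
      rw [abs_of_pos this]
      constructor <;> linarith
    · have : v < 0 := by linarith
      rw [abs_of_neg this]
      constructor <;> linarith
  -- the pieces
  set ρ : ℝ := (1 / 2) ^ A' with hρ
  have hρ' : (1 / 2 : ℝ) ^ A / 2 ^ (A' - A) = ρ := by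
    rw [hρ, div_eq_iff (by positivity), mul_comm]
    have := two_pow_half hAA
    push_cast at this
    exact this.symm
  have hqN : (q : ℝ) * (1 / 2) ^ N = ρ := by
    rw [hq, hρ]
    exact two_pow_half hAN
  have hpρ : (p : ℝ) * ρ = (1 / 2) ^ A := by
    rw [hp, hρ]
    exact two_pow_half hAA
  have hidx : ∀ i : ℕ, i < p → ∀ j : ℕ, j < q → i * q + j < 2 ^ (N - A) := by
    intro i hi j hj
    rw [hpq]
    calc i * q + j < i * q + q := by omega
      _ = (i + 1) * q := by ring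
      _ ≤ p * q := Nat.mul_le_mul_right _ hi
  have hFspec : ∀ i : ℕ, i < p →
      Spec (cell (mom k) (t + i * ρ) ρ C) (fun x => ∑ j ∈ range q, f (i * q + j) x) := by
    intro i hi
    refine Spec.sum _ fun j hj => (hf _ (hidx i hi j (mem_range.1 hj))).mono ?_
    have hj' : (j : ℝ) + 1 ≤ q := by exact_mod_cast mem_range.1 hj
    have h2 := hhalf N
    refine cell_subset hC (hhalf A') (hhalf N).le ?_ ?_
    · rw [← hqN]
      push_cast
      nlinarith
    · rw [← hqN]
      push_cast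
      nlinarith
  have hui : ∀ i : ℕ, i < p → t ≤ t + i * ρ ∧ t + i * ρ + ρ ≤ t + (1 / 2) ^ A := by
    intro i hi
    have hi' : (i : ℝ) + 1 ≤ p := by exact_mod_cast hi
    have h0 : (0 : ℝ) ≤ i := Nat.cast_nonneg i
    have h1 : 0 < ρ := hhalf A'
    constructor
    · nlinarith
    · rw [← hpρ]
      nlinarith
  have hρR : R⁻¹ ≤ ρ ^ n := by
    rw [hRdef, hρ, ← inv_pow, ← one_div, ← pow_mul]
    refine pow_le_pow_of_le_one (by norm_num) (by norm_num) ?_
    rw [mul_comm]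
    exact hAB
  set D : ℝ := Kc * 2 ^ (ε / a * ((A' - A : ℕ) : ℝ)) with hD
  have hmain := core hnk ha hb hR hη hηc hone e1 hK₂ e2 e3 hG (fun ξ hξ => hξ) p
    (fun i x => ∑ j ∈ range q, f (i * q + j) x)
    (fun i hi => (hFspec i hi).continuous) (ENNReal.ofReal D) ENNReal.ofReal_ne_top
    (fun x => by
      have h1 := hcur t ((1 / 2) ^ A) (hhalf A) (hhalf1 A) harc (A' - A)
        (fun i y => (∑ j ∈ range q, f (i * q + j) (x + iota hnk y)) *
          ((∏ i, sc (R⁻¹ * y i) : ℝ) : ℂ)) (fun i hi => by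
          rw [hρ']
          have h2 := hui i hi
          have h3 := harc (t + i * ρ) h2.1 (by linarith [hhalf A'])
          exact spec_piece hnk hR hC hfat h3.1 h3.2 (hhalf A') (hhalf1 A') hρR (hFspec i hi) x)
      simp only [← Finset.sum_mul] at h1
      exact h1)
    (ENNReal.ofReal M * (∑ j ∈ range (2 ^ (N - B)), NN (tri k) (g j)) ^ b)
    (fun i => ∑ j ∈ range q, NN (tri k) (f (i * q + j)))
    (fun i hi y => by
      have h2 := hui i hi
      have h1 := hbil (t + i * ρ) 0 (by linarith) (by linarith) (by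
        rcases ht3 with h | h
        · left; linarith
        · right; linarith)
        (fun j x => f (i * q + j) (x + iota hnk y)) g (fun j hj => by
          have h3 := hf _ (hidx i hi j hj)
          have h4 := h3.pull (iota hnk y) id id measurable_id (fun _ _ => rfl)
          have h5 : (fun x => f (i * q + j) (x + iota hnk y)) =
              fun x => f (i * q + j) (iota hnk y + id x) := by
            funext x
            exact congrArg (f (i * q + j)) (add_comm _ _)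
          rw [h5]
          refine h4.mono ?_
          rw [Set.image_id]
          have h6 : t + ((i * q + j : ℕ) : ℝ) * (1 / 2) ^ N =
              t + i * ρ + j * (1 / 2) ^ N := by
            rw [← hqN]
            push_cast
            ring
          dsimp only
          rw [h6]) hg
      have h7 : ∀ j, NN (tri k) (fun x => f (i * q + j) (x + iota hnk y)) =
          NN (tri k) (f (i * q + j)) := by
        intro j
        have := NN_translate (tri k) (f (i * q + j)) (iota hnk y)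
        rw [← this]
        simp only [add_comm]
      simp only [h7] at h1
      refine h1.trans (le_of_eq ?_)
      ring)
  have hsumf : ∀ x, ∑ j ∈ range (2 ^ (N - A)), f j x =
      ∑ i ∈ range p, ∑ j ∈ range q, f (i * q + j) x := by
    intro x
    rw [hpq]
    exact sum_blocks (fun j => f j x) p q
  have hsumN : ∑ j ∈ range (2 ^ (N - A)), NN (tri k) (f j) =
      ∑ i ∈ range p, ∑ j ∈ range q, NN (tri k) (f (i * q + j)) := by
    rw [hpq]
    exact sum_blocks (fun j => NN (tri k) (f j)) p q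
  simp only [hsumf, hsumN]
  refine hmain.trans ?_
  have hDa : ENNReal.ofReal D ^ a ≤
      ENNReal.ofReal Kc ^ a * ENNReal.ofReal (2 ^ (ε * N)) := by
    rw [hD, ENNReal.ofReal_mul hKc.le, mul_pow]
    gcongr
    rw [← ENNReal.ofReal_pow (by positivity)]
    refine ENNReal.ofReal_le_ofReal ?_
    rw [← Real.rpow_natCast, ← Real.rpow_mul (by norm_num)]
    refine Real.rpow_le_rpow_of_exponent_le (by norm_num) ?_
    have h1 : ((A' - A : ℕ) : ℝ) ≤ N := by
      exact_mod_cast (by omega : A' - A ≤ N)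
    have h2 : ε / a * ((A' - A : ℕ) : ℝ) * a = ε * ((A' - A : ℕ) : ℝ) := by
      field_simp
    rw [h2]
    gcongr
  calc K₁ ^ (2 * b - 1) * K₂ * K₃ * ENNReal.ofReal D ^ a *
        (ENNReal.ofReal M * (∑ j ∈ range (2 ^ (N - B)), NN (tri k) (g j)) ^ b) *
        (∑ i ∈ range p, ∑ j ∈ range q, NN (tri k) (f (i * q + j))) ^ a
      ≤ K₁ ^ (2 * b - 1) * K₂ * K₃ * (ENNReal.ofReal Kc ^ a * ENNReal.ofReal (2 ^ (ε * N))) *
        (ENNReal.ofReal M * (∑ j ∈ range (2 ^ (N - B)), NN (tri k) (g j)) ^ b) *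
        (∑ i ∈ range p, ∑ j ∈ range q, NN (tri k) (f (i * q + j))) ^ a := by gcongr
    _ = κ * ENNReal.ofReal (2 ^ (ε * N)) * ENNReal.ofReal M *
        (∑ i ∈ range p, ∑ j ∈ range q, NN (tri k) (f (i * q + j))) ^ a *
        (∑ j ∈ range (2 ^ (N - B)), NN (tri k) (g j)) ^ b := by
        rw [hκ]
        ring
    _ ≤ _ := by
        rw [ENNReal.ofReal_mul (by positivity), ENNReal.ofReal_mul (by positivity)]
        gcongr

end Key

/-- DL-11: the key bilinear lemma -/
theorem bil_key (k n : ℕ) (hn : 1 ≤ n) (hk : n < k) (hcurve : CurveThm n) (C : ℝ) (hC : 1 ≤ C)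
    (ε : ℝ) (hε : 0 < ε) : ∃ K : ℝ, 0 < K ∧ ∀ A A' B N : ℕ, A ≤ A' → A' ≤ N → B ≤ N →
      n * A' ≤ (k - n + 1) * B → ∀ M : ℝ, 0 ≤ M → Bil k n C A' B N M →
        Bil k n C A B N (K * 2 ^ (ε * N) * M) := by
  obtain ⟨K, hK, h⟩ := Key.key_zero hn hk hcurve C hC ε hε
  refine ⟨K, hK, ?_⟩
  intro A A' B N hAA hAN hBN hAB M hM hbil t t' ht1 ht2 ht3
  have h1 := h A A' B N hAA hAN hBN hAB M hM hbil (t - t') (by linarith) (by linarith) (by
    rcases ht3 with h | h
    · left; linarith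
    · right; linarith)
  have hlt := Key.tri_lt hk
  have h2 := transfer_bil (s := tri k) (by have := Key.tri_pos hn; omega)
    (by omega : tri n + (tri k - tri n) = tri k) (P (mom k) t' 1 0) (PM (mom k) t' 1)
    (det_mom one_ne_zero) _ _ _ _ _ h1
  have h3 : (fun lam => P (mom k) t' 1 0 + (PM (mom k) t' 1).mulVec lam) =
      P (mom k) t' 1 := by
    funext lam
    exact (P_eq _ _ _ _).symm
  have h4 : ∀ v ρ' : ℝ, P (mom k) t' 1 '' cell (mom k) v ρ' C = cell (mom k) (t' + v) ρ' C := by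
    intro v ρ'
    have := cell_comp (n := k) t' 1 v ρ' C
    rw [one_mul, one_mul] at this
    exact this.symm
  simp only [h3, h4] at h2
  have h5 : ∀ j : ℕ, t' + (t - t' + j * (1 / 2) ^ N) = t + j * (1 / 2) ^ N := fun j => by ring
  have h6 : ∀ j : ℕ, t' + (0 + j * (1 / 2) ^ N) = t' + (j : ℝ) * (1 / 2) ^ N := fun j => by ring
  simp only [h5, h6] at h2
  exact h2

end Pool.Agent.DL
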